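import Pool.Agent.N514.CF.Kum

/-!
# Pairs of residues modulo `p²` (helper514)
-/

set_option autoImplicit false

namespace Pool.Agent.N514.CF

/-- reduction from `ℤ/p²` to `ℤ/p` -/
def prj (p : ℕ) : ZMod (p ^ 2) →+* ZMod p := ZMod.castHom (dvd_pow_self p two_ne_zero) (ZMod p)

/-- the good classes -/
def OmK (p d m : ℕ) (U0 U1 W0 W1 : ℤ) : Set (Fin 2 → ZMod (p ^ 2)) :=
  {x | prj p (U0 * x 0 + U1 * x 1) = 0 ∧ (U0 * x 0 + U1 * x 1 : ZMod (p ^ 2)) ≠ 0 ∧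
    prj p (W0 * x 0 + W1 * x 1) ∈ Gp p d m}

theorem s_card (p : ℕ) [hp : Fact p.Prime] :
    p - 1 ≤ {s : ZMod (p ^ 2) | prj p s = 0 ∧ s ≠ 0}.ncard := by
  have hp0 : 0 < p := hp.out.pos
  have hnz : NeZero (p ^ 2) := ⟨pow_ne_zero _ hp0.ne'⟩
  have hinj : Set.InjOn (fun j : ℕ => ((p * j : ℕ) : ZMod (p ^ 2))) (Set.Ioo 0 p) := by
    intro i hi j hj hij
    have hlt : ∀ i ∈ Set.Ioo 0 p, p * i < p ^ 2 := fun i hi => by
      rw [sq]; exact Nat.mul_lt_mul_of_pos_left hi.2 hp0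
    have h1 := congrArg ZMod.val hij
    simp only at h1
    rw [ZMod.val_natCast_of_lt (hlt i hi), ZMod.val_natCast_of_lt (hlt j hj)] at h1
    exact Nat.eq_of_mul_eq_mul_left hp0 h1
  have hsub : (fun j : ℕ => ((p * j : ℕ) : ZMod (p ^ 2))) '' (Set.Ioo 0 p) ⊆
      {s : ZMod (p ^ 2) | prj p s = 0 ∧ s ≠ 0} := by
    rintro _ ⟨j, hj, rfl⟩
    refine ⟨?_, ?_⟩
    · simp only
      rw [map_natCast]
      push_cast
      simp
    · simp only
      rw [Ne, ZMod.natCast_eq_zero_iff]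
      intro h
      rw [sq] at h
      have h1 := Nat.le_of_dvd hj.1 (Nat.dvd_of_mul_dvd_mul_left hp0 h)
      have h2 := hj.2
      omega
  have hc : ((fun j : ℕ => ((p * j : ℕ) : ZMod (p ^ 2))) '' (Set.Ioo 0 p)).ncard = p - 1 := by
    rw [hinj.ncard_image]
    have : (Set.Ioo 0 p : Set ℕ) = ((Finset.Ioo 0 p : Finset ℕ) : Set ℕ) := by ext; simp
    rw [this, Set.ncard_coe_finset, Nat.card_Ioo]
    omega
  calc p - 1 = _ := hc.symm
    _ ≤ _ := Set.ncard_le_ncard hsub (Set.toFinite _)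

theorem t_card (p : ℕ) [hp : Fact p.Prime] (G : Set (ZMod p)) :
    p * G.ncard ≤ {t : ZMod (p ^ 2) | prj p t ∈ G}.ncard := by
  have hp0 : 0 < p := hp.out.pos
  have hnz : NeZero (p ^ 2) := ⟨pow_ne_zero _ hp0.ne'⟩
  have hval : ∀ b : ZMod p, b.val < p := fun b => ZMod.val_lt b
  have hlt : ∀ (k : ℕ) (b : ZMod p), k < p → p * k + b.val < p ^ 2 := by
    intro k b hk
    have h1 := hval b
    have h2 : p * (k + 1) ≤ p * p := Nat.mul_le_mul_left p hk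
    rw [sq]
    calc p * k + b.val < p * k + p := by omega
      _ = p * (k + 1) := by ring
      _ ≤ p * p := h2
  have hinj : Set.InjOn (fun z : ℕ × ZMod p => ((p * z.1 + z.2.val : ℕ) : ZMod (p ^ 2)))
      (Set.Iio p ×ˢ G) := by
    rintro ⟨k, b⟩ ⟨hk, -⟩ ⟨k', b'⟩ ⟨hk', -⟩ h
    have h1 := congrArg ZMod.val h
    simp only at h1 hk hk'
    rw [Set.mem_Iio] at hk hk'
    rw [ZMod.val_natCast_of_lt (hlt k b hk), ZMod.val_natCast_of_lt (hlt k' b' hk')] at h1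
    have h2 : b.val = b'.val := by
      have := congrArg (· % p) h1
      simp only [Nat.mul_add_mod] at this
      rwa [Nat.mod_eq_of_lt (hval b), Nat.mod_eq_of_lt (hval b')] at this
    have h3 : p * k = p * k' := by omega
    have h4 := Nat.eq_of_mul_eq_mul_left hp0 h3
    rw [h4, ZMod.val_injective p h2]
  have hsub : (fun z : ℕ × ZMod p => ((p * z.1 + z.2.val : ℕ) : ZMod (p ^ 2))) ''
      (Set.Iio p ×ˢ G) ⊆ {t : ZMod (p ^ 2) | prj p t ∈ G} := by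
    rintro _ ⟨⟨k, b⟩, ⟨-, hb⟩, rfl⟩
    change prj p _ ∈ G
    simp only
    rw [map_natCast]
    push_cast
    simpa using hb
  have hc : ((fun z : ℕ × ZMod p => ((p * z.1 + z.2.val : ℕ) : ZMod (p ^ 2))) ''
      (Set.Iio p ×ˢ G)).ncard = p * G.ncard := by
    rw [hinj.ncard_image, Set.ncard_prod]
    have : (Set.Iio p : Set ℕ) = ((Finset.range p : Finset ℕ) : Set ℕ) := by ext; simp
    rw [this, Set.ncard_coe_finset, Finset.card_range]
  calc p * G.ncard = _ := hc.symm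
    _ ≤ _ := Set.ncard_le_ncard hsub (Set.toFinite _)

theorem omK_card (p : ℕ) [hp : Fact p.Prime] (d m : ℕ) (hd : 2 ≤ d) (hm : m * d = p - 1)
    (U0 U1 W0 W1 : ℤ) (hdet : ¬ (p : ℤ) ∣ U0 * W1 - U1 * W0) :
    (p - 1) * (p * m) ≤ (OmK p d m U0 U1 W0 W1).ncard := by
  have hp0 : 0 < p := hp.out.pos
  have hnz : NeZero (p ^ 2) := ⟨pow_ne_zero _ hp0.ne'⟩
  obtain ⟨D, hD⟩ : ∃ D : ZMod (p ^ 2), ((U0 * W1 - U1 * W0 : ℤ) : ZMod (p ^ 2)) * D = 1 := by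
    have h1 : IsCoprime (U0 * W1 - U1 * W0) ((p : ℤ) ^ 2) := by
      apply IsCoprime.pow_right
      rw [isCoprime_comm]
      exact (Prime.coprime_iff_not_dvd (Nat.prime_iff_prime_int.mp hp.out)).mpr hdet
    obtain ⟨a, b, hab⟩ := h1
    refine ⟨(a : ZMod (p ^ 2)), ?_⟩
    have h2 := congrArg (Int.cast : ℤ → ZMod (p ^ 2)) hab
    have h3 : ((p : ZMod (p ^ 2))) ^ 2 = 0 := by
      have := ZMod.natCast_self (p ^ 2)
      push_cast at this
      exact this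
    push_cast at h2 ⊢
    rw [h3, mul_zero, add_zero] at h2
    rw [mul_comm]
    exact h2
  set S0 : Set (ZMod (p ^ 2)) := {s | prj p s = 0 ∧ s ≠ 0} with hS0
  set T0 : Set (ZMod (p ^ 2)) := {t | prj p t ∈ Gp p d m} with hT0
  let ψ : ZMod (p ^ 2) × ZMod (p ^ 2) → (Fin 2 → ZMod (p ^ 2)) := fun z =>
    ![D * (W1 * z.1 - U1 * z.2), D * (U0 * z.2 - W0 * z.1)]
  push_cast at hD
  have e1 : ∀ z, (U0 * ψ z 0 + U1 * ψ z 1 : ZMod (p ^ 2)) = z.1 := by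
    intro z
    change (U0 : ZMod (p ^ 2)) * (D * (W1 * z.1 - U1 * z.2)) + U1 * (D * (U0 * z.2 - W0 * z.1)) = z.1
    have : (U0 : ZMod (p ^ 2)) * (D * (W1 * z.1 - U1 * z.2)) + U1 * (D * (U0 * z.2 - W0 * z.1)) =
      ((U0 * W1 - U1 * W0) * D) * z.1 := by ring
    rw [this, hD, one_mul]
  have e2 : ∀ z, (W0 * ψ z 0 + W1 * ψ z 1 : ZMod (p ^ 2)) = z.2 := by
    intro z
    change (W0 : ZMod (p ^ 2)) * (D * (W1 * z.1 - U1 * z.2)) + W1 * (D * (U0 * z.2 - W0 * z.1)) = z.2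
    have : (W0 : ZMod (p ^ 2)) * (D * (W1 * z.1 - U1 * z.2)) + W1 * (D * (U0 * z.2 - W0 * z.1)) =
      ((U0 * W1 - U1 * W0) * D) * z.2 := by ring
    rw [this, hD, one_mul]
  have hinj : Set.InjOn ψ (S0 ×ˢ T0) := by
    intro z _ z' _ h
    apply Prod.ext
    · rw [← e1 z, ← e1 z', h]
    · rw [← e2 z, ← e2 z', h]
  have hsub : ψ '' (S0 ×ˢ T0) ⊆ OmK p d m U0 U1 W0 W1 := by
    rintro _ ⟨z, ⟨⟨h1, h2⟩, h3⟩, rfl⟩
    refine ⟨?_, ?_, ?_⟩
    · rw [e1]; exact h1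
    · rw [e1]; exact h2
    · rw [e2]; exact h3
  have h4 : p * m ≤ T0.ncard :=
    (Nat.mul_le_mul_left p (gp_card p d m hd hm)).trans (t_card p (Gp p d m))
  calc (p - 1) * (p * m) ≤ S0.ncard * T0.ncard := Nat.mul_le_mul (s_card p) h4
    _ = (S0 ×ˢ T0).ncard := (Set.ncard_prod).symm
    _ = (ψ '' (S0 ×ˢ T0)).ncard := hinj.ncard_image.symm
    _ ≤ _ := Set.ncard_le_ncard hsub (Set.toFinite _)

end Pool.Agent.N514.CF
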