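import Mathlib

/-!
# Primes of degree one that split in a cyclotomic extension (helper514)
-/

set_option autoImplicit false

namespace Pool.Agent.N514.CF

open NumberField IsDedekindDomain

/-- a ring homomorphism from a field into a field with `p` elements -/
theorem card_of_inj {A B : Type*} [Field A] [Field B] (f : A →+* B) (p : ℕ) (hp : p.Prime)
    (hB : Nat.card B = p) : Nat.card A = p := by
  have hfin : Finite B := Nat.finite_of_card_ne_zero (by rw [hB]; exact hp.ne_zero)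
  have hfinA : Finite A := Finite.of_injective f f.injective
  have h1 : Nat.card f.toAddMonoidHom.range ∣ Nat.card B := AddSubgroup.card_addSubgroup_dvd_card _
  have h2 : Nat.card f.toAddMonoidHom.range = Nat.card A :=
    Nat.card_range_of_injective (f := f.toAddMonoidHom) f.injective
  rw [h2, hB] at h1
  rcases (Nat.dvd_prime hp).mp h1 with h3 | h3
  · exfalso
    have h4 : 1 < Nat.card A := Finite.one_lt_card
    omega
  · exact h3

theorem order_red {A : Type*} [CommRing A] [IsDomain A] (I : Ideal A) (d : ℕ)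
    (hd : 0 < d) (ζ : A) (hζ : IsPrimitiveRoot ζ d) (hdI : (d : A) ∉ I) :
    orderOf (Ideal.Quotient.mk I ζ) = d := by
  obtain ⟨n, rfl⟩ : ∃ n, d = n + 1 := ⟨d - 1, by omega⟩
  rw [orderOf_eq_iff hd]
  refine ⟨by rw [← map_pow, hζ.pow_eq_one, map_one], ?_⟩
  intro m hm hm0 h
  apply hdI
  have h1 := hζ.prod_one_sub_pow_eq_order
  push_cast
  rw [← h1]
  obtain ⟨k, rfl⟩ : ∃ k, m = k + 1 := ⟨m - 1, by omega⟩
  refine Ideal.mem_of_dvd I (Finset.dvd_prod_of_mem _ (Finset.mem_range.mpr (by omega : k < n))) ?_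
  rw [← Ideal.Quotient.eq_zero_iff_mem, map_sub, map_one, map_pow, h, sub_self]

theorem dvd_of_order {F : Type*} [Field F] (x : F) (d : ℕ) (hd : 0 < d) (h : orderOf x = d) (p : ℕ)
    (hp : Nat.card F = p) : d ∣ p - 1 := by
  have h0 : x ≠ 0 := by
    rintro rfl
    have h2 : IsOfFinOrder (0 : F) := by
      rw [← orderOf_pos_iff, h]; exact hd
    obtain ⟨n, hn, h3⟩ := isOfFinOrder_iff_pow_eq_one.mp h2
    rw [zero_pow hn.ne'] at h3
    exact zero_ne_one h3
  have h2 : orderOf (Units.mk0 x h0) = d := by rw [← orderOf_units, Units.val_mk0, h]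
  have h3 := orderOf_dvd_natCard (Units.mk0 x h0)
  rw [h2] at h3
  have h4 : Nat.card Fˣ = p - 1 := by
    rw [Nat.card_units, hp]
  rwa [h4] at h3

/-- primes of a cyclotomic extension of degree one -/
theorem down (L : Type) [Field L] [NumberField L] (d : ℕ) (hd : 0 < d) (D : 𝓞 L) (hD : D ≠ 0) :
    ∃ (L' : Type) (_ : Field L') (_ : NumberField L') (D' : 𝓞 L'), D' ≠ 0 ∧
      ∀ (p : ℕ), p.Prime → ∀ v' : HeightOneSpectrum (𝓞 L'), Ideal.absNorm v'.asIdeal = p →
        D' ∉ v'.asIdeal → d ∣ p - 1 ∧ ∃ v : HeightOneSpectrum (𝓞 L),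
          Ideal.absNorm v.asIdeal = p ∧ D ∉ v.asIdeal := by
  have hne : NeZero d := ⟨hd.ne'⟩
  let L' := CyclotomicField d L
  have hnf : NumberField L' := IsCyclotomicExtension.numberField {d} L L'
  have hinj : Function.Injective (algebraMap (𝓞 L) (𝓞 L')) := FaithfulSMul.algebraMap_injective _ _
  have hζ := IsCyclotomicExtension.zeta_spec d L L'
  have hζ' : IsPrimitiveRoot hζ.toInteger d := hζ.toInteger_isPrimitiveRoot
  refine ⟨L', inferInstance, hnf, algebraMap (𝓞 L) (𝓞 L') D * (d : 𝓞 L'), ?_, ?_⟩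
  · refine mul_ne_zero ?_ (by exact_mod_cast hd.ne')
    rwa [Ne, map_eq_zero_iff _ hinj]
  intro p hp v' hN hD'
  have hmax : v'.asIdeal.IsMaximal := v'.isMaximal
  let _ := Ideal.Quotient.field v'.asIdeal
  have hcard : Nat.card (𝓞 L' ⧸ v'.asIdeal) = p := by
    rw [← hN, Ideal.absNorm_apply, Submodule.cardQuot_apply]
  have hfin : Finite (𝓞 L' ⧸ v'.asIdeal) := Nat.finite_of_card_ne_zero (by rw [hcard]; exact hp.ne_zero)
  have hpm : (p : 𝓞 L') ∈ v'.asIdeal := by
    have := Ideal.absNorm_mem v'.asIdeal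
    rwa [hN] at this
  constructor
  · have h1 := order_red v'.asIdeal d hd _ hζ' (fun h => hD' (Ideal.mul_mem_left _ _ h))
    exact dvd_of_order _ d hd h1 p hcard
  · have hprime : (v'.asIdeal.comap (algebraMap (𝓞 L) (𝓞 L'))).IsPrime := Ideal.comap_isPrime _ _
    have hpm' : (p : 𝓞 L) ∈ v'.asIdeal.comap (algebraMap (𝓞 L) (𝓞 L')) := by
      rw [Ideal.mem_comap, map_natCast]
      exact hpm
    have hne' : v'.asIdeal.comap (algebraMap (𝓞 L) (𝓞 L')) ≠ ⊥ := by
      intro h
      rw [h, Ideal.mem_bot] at hpm'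
      exact hp.ne_zero (by exact_mod_cast hpm')
    refine ⟨⟨v'.asIdeal.comap (algebraMap (𝓞 L) (𝓞 L')), hprime, hne'⟩, ?_, ?_⟩
    · have hmax' : (v'.asIdeal.comap (algebraMap (𝓞 L) (𝓞 L'))).IsMaximal := hprime.isMaximal hne'
      let _ := Ideal.Quotient.field (v'.asIdeal.comap (algebraMap (𝓞 L) (𝓞 L')))
      have h1 := card_of_inj (Ideal.quotientMap v'.asIdeal (algebraMap (𝓞 L) (𝓞 L')) le_rfl) p hp hcard
      rw [Ideal.absNorm_apply, Submodule.cardQuot_apply]
      exact h1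
    · intro h
      exact hD' (Ideal.mul_mem_right _ _ h)

end Pool.Agent.N514.CF
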