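import Mathlib

/-!
# Binomials over finite fields (helper514)
-/

set_option autoImplicit false

namespace Pool.Agent.N514.CF

open Polynomial

/-- binomials over a finite field whose constant term generates -/
theorem irr_kummer {F : Type*} [Field F] [Finite F] {d : ℕ} (hd : 0 < d) (m : ℕ)
    (hm : m * d = Nat.card F - 1) (b : F) (hb : orderOf (b ^ m) = d) :
    Irreducible (X ^ d - C b) := by
  classical
  have hq1 : 1 < Nat.card F := Finite.one_lt_card
  have hm0 : m ≠ 0 := by
    rintro rfl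
    simp at hm
    omega
  have hb0 : b ≠ 0 := by
    rintro rfl
    rw [zero_pow hm0, orderOf_eq_zero (by
      rw [isOfFinOrder_iff_pow_eq_one]
      rintro ⟨n, hn, h⟩
      rw [zero_pow hn.ne'] at h
      exact zero_ne_one h)] at hb
    omega
  have hf : (X ^ d - C b : F[X]).natDegree = d := natDegree_X_pow_sub_C
  have hf0 : (X ^ d - C b : F[X]) ≠ 0 := X_pow_sub_C_ne_zero hd b
  obtain ⟨h, hirr, hdvd⟩ := exists_irreducible_of_natDegree_ne_zero (f := (X ^ d - C b : F[X])) (by omega)
  have : Fact (Irreducible h) := ⟨hirr⟩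
  have hh0 : h ≠ 0 := hirr.ne_zero
  let θ : AdjoinRoot h := AdjoinRoot.root h
  let pb := AdjoinRoot.powerBasis hh0
  have hfd : Module.finrank F (AdjoinRoot h) = h.natDegree := by
    rw [pb.finrank, AdjoinRoot.powerBasis_dim]
  have : Module.Finite F (AdjoinRoot h) := pb.finite
  have : Finite (AdjoinRoot h) := Module.finite_of_finite F
  have hcard : Nat.card (AdjoinRoot h) = Nat.card F ^ h.natDegree := by
    rw [Module.natCard_eq_pow_finrank (K := F), hfd]
  have hθd : θ ^ d = algebraMap F _ b := by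
    have h1 : aeval θ (X ^ d - C b) = 0 := by
      obtain ⟨r, hr⟩ := hdvd
      rw [hr, map_mul, AdjoinRoot.aeval_eq, AdjoinRoot.mk_self, zero_mul]
    simpa [sub_eq_zero] using h1
  have hθ0 : θ ≠ 0 := by
    intro h0
    rw [h0, zero_pow hd.ne'] at hθd
    exact hb0 ((map_eq_zero _).mp hθd.symm)
  have hq : θ ^ Nat.card F = algebraMap F _ (b ^ m) * θ := by
    have e1 : Nat.card F = d * m + 1 := by
      have : d * m = m * d := mul_comm _ _
      omega
    rw [e1, pow_succ, pow_mul, hθd, map_pow]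
  have hFq : ∀ c : F, c ^ Nat.card F = c := by
    intro c
    have := Fintype.ofFinite F
    rw [Nat.card_eq_fintype_card]
    exact FiniteField.pow_card c
  have hqi : ∀ i : ℕ, θ ^ (Nat.card F ^ i) = algebraMap F _ ((b ^ m) ^ i) * θ := by
    intro i
    induction i with
    | zero => simp
    | succ i ih =>
      rw [pow_succ, pow_mul, ih, mul_pow, ← map_pow, hFq, hq, ← mul_assoc, ← map_mul, ← pow_succ]
  have hfix : θ ^ Nat.card (AdjoinRoot h) = θ := by
    have := Fintype.ofFinite (AdjoinRoot h)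
    rw [Nat.card_eq_fintype_card]
    exact FiniteField.pow_card θ
  rw [hcard, hqi] at hfix
  have h1 : (b ^ m) ^ h.natDegree = 1 := by
    have h2 : algebraMap F (AdjoinRoot h) ((b ^ m) ^ h.natDegree) = 1 := mul_right_cancel₀ hθ0 (by rw [hfix, one_mul])
    exact (algebraMap F (AdjoinRoot h)).injective (by rw [h2, map_one])
  have h2 : d ∣ h.natDegree := hb ▸ orderOf_dvd_of_pow_eq_one h1
  have h3 : h.natDegree ≤ d := hf ▸ natDegree_le_of_dvd hdvd hf0
  have h4 : h.natDegree = d := le_antisymm h3 (Nat.le_of_dvd hirr.natDegree_pos h2)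
  have h5 : Associated h (X ^ d - C b) := by
    apply associated_of_dvd_of_natDegree_le hdvd hf0
    rw [hf, h4]
  exact h5.irreducible hirr

/-- the residue classes for which the binomial is irreducible -/
def Gp (p d m : ℕ) : Set (ZMod p) := {b | orderOf (b ^ m) = d}

theorem gp_card (p : ℕ) [Fact p.Prime] (d m : ℕ) (hd : 2 ≤ d) (hm : m * d = p - 1) :
    m ≤ (Gp p d m).ncard := by
  classical
  obtain ⟨g, hg⟩ := IsCyclic.exists_generator (α := (ZMod p)ˣ)
  have hgo : orderOf g = p - 1 := by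
    rw [orderOf_eq_card_of_forall_mem_zpowers hg, Nat.card_eq_fintype_card, ZMod.card_units]
  have hp1 : 1 < p := (Fact.out : p.Prime).one_lt
  have hm0 : 0 < m := by
    rcases Nat.eq_zero_or_pos m with h | h
    · rw [h, zero_mul] at hm
      omega
    · exact h
  have hinj : Set.InjOn (fun j : ℕ => ((g ^ (1 + d * j) : (ZMod p)ˣ) : ZMod p)) (Set.Iio m) := by
    intro i hi j hj hij
    have h1 : g ^ (1 + d * i) = g ^ (1 + d * j) := Units.ext hij
    have hb : ∀ i : ℕ, i ∈ Set.Iio m → 1 + d * i ∈ Set.Iio (orderOf g) := by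
      intro i hi
      rw [Set.mem_Iio] at hi ⊢
      rw [hgo, ← hm]
      have : d * i + d ≤ m * d := by
        have : (i + 1) * d ≤ m * d := Nat.mul_le_mul_right d hi
        calc d * i + d = (i + 1) * d := by ring
          _ ≤ m * d := this
      omega
    have h2 := pow_injOn_Iio_orderOf (hb i hi) (hb j hj) h1
    have h3 : d * i = d * j := by omega
    exact Nat.eq_of_mul_eq_mul_left (by omega) h3
  have hsub : (fun j : ℕ => ((g ^ (1 + d * j) : (ZMod p)ˣ) : ZMod p)) '' (Set.Iio m) ⊆ Gp p d m := by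
    rintro _ ⟨j, -, rfl⟩
    change orderOf ((((g ^ (1 + d * j) : (ZMod p)ˣ) : ZMod p)) ^ m) = d
    have h1 : (((g ^ (1 + d * j) : (ZMod p)ˣ) : ZMod p)) ^ m = ((g ^ m : (ZMod p)ˣ) : ZMod p) := by
      rw [← Units.val_pow_eq_pow_val, ← pow_mul]
      congr 1
      have h2 : (1 + d * j) * m = m + (m * d) * j := by ring
      rw [h2, pow_add, pow_mul, hm, ← hgo, pow_orderOf_eq_one, one_pow, mul_one]
    rw [h1, orderOf_units, orderOf_pow' g hm0.ne', hgo, ← hm, Nat.gcd_mul_right_left,
      Nat.mul_div_cancel_left d hm0]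
  have hc : ((fun j : ℕ => ((g ^ (1 + d * j) : (ZMod p)ˣ) : ZMod p)) '' (Set.Iio m)).ncard = m := by
    rw [hinj.ncard_image]
    have : (Set.Iio m : Set ℕ) = ((Finset.range m : Finset ℕ) : Set ℕ) := by ext; simp
    rw [this, Set.ncard_coe_finset, Finset.card_range]
  calc m = _ := hc.symm
    _ ≤ _ := Set.ncard_le_ncard hsub (Set.toFinite _)

end Pool.Agent.N514.CF
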