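import Pool.Agent.N514.CF.Cnt
import Pool.Agent.TH377.Sup.Good
import Pool.Agent.W858.SG.Dens
import Pool.Agent.N92.TH.Base
import Pool.Agent.Y722.HS.Box

/-!
# The local step for binomials (helper514)
-/

set_option autoImplicit false

namespace Pool.Agent.N514.CF

open Polynomial WithZero NumberField IsDedekindDomain
open Pool.Agent.TH377.Sup Pool.Agent.W858.SG Pool.Agent.N92.TH

/-- the coefficients of `T ^ d - b` -/
def kf {R : Type*} [CommRing R] (d : ℕ) (b : R) : Fin (d + 1) → R :=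
  fun j => if j = 0 then -b else if j = Fin.last d then 1 else 0

/-- the coefficients `(a, -b, 0, …, 0, 1)` -/
def kv {R : Type*} [CommRing R] (d : ℕ) (a b : R) : Fin (d + 2) → R := Fin.cons a (kf d b)

theorem kv_zero {R : Type*} [CommRing R] (d : ℕ) (a b : R) : kv d a b 0 = a := rfl

theorem kv_succ {R : Type*} [CommRing R] (d : ℕ) (a b : R) (i : Fin (d + 1)) :
    kv d a b i.succ = kf d b i := rfl

theorem kf_last {R : Type*} [CommRing R] (d : ℕ) (hd : 0 < d) (b : R) : kf d b (Fin.last d) = 1 := by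
  have h0 : Fin.last d ≠ 0 := by
    intro h
    have := congrArg Fin.val h
    simp at this
    omega
  unfold kf
  rw [if_neg h0, if_pos rfl]

theorem pol_kf {R : Type*} [CommRing R] (d : ℕ) (hd : 0 < d) (b : R) :
    pol (kf d b) = X ^ d - C b := by
  classical
  have hne : Fin.last d ∈ (Finset.univ : Finset (Fin (d + 1))).erase 0 := by
    rw [Finset.mem_erase]
    refine ⟨?_, Finset.mem_univ _⟩
    intro h
    have := congrArg Fin.val h
    simp at this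
    omega
  unfold pol
  rw [← Finset.add_sum_erase _ _ (Finset.mem_univ (0 : Fin (d + 1))),
    ← Finset.add_sum_erase _ _ hne, Finset.sum_eq_zero]
  · have h0 : kf d b 0 = -b := by simp [kf]
    rw [h0, kf_last d hd, Fin.val_zero, Fin.val_last, C_neg, C_1]
    ring
  · intro i hi
    rw [Finset.mem_erase, Finset.mem_erase] at hi
    simp only [kf, if_neg hi.2.1, if_neg hi.1]
    simp

theorem kf_map {R S : Type*} [CommRing R] [CommRing S] (f : R →+* S) (d : ℕ) (b : R) (i : Fin (d + 1)) :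
    f (kf d b i) = kf d (f b) i := by
  unfold kf
  split_ifs <;> simp

/-- integers modulo the square of an unramified prime of degree one -/
theorem int_mem {L : Type} [Field L] [NumberField L] (v : HeightOneSpectrum (𝓞 L)) (p : ℕ)
    (hp : p.Prime) (hN : Ideal.absNorm v.asIdeal = p)
    (hur : (p : 𝓞 L) ∉ v.asIdeal ^ 2) :
    ∃ τ : ZMod (p ^ 2) →+* 𝓞 L ⧸ v.asIdeal ^ 2, Function.Bijective τ := by
  have hcard : Nat.card (𝓞 L ⧸ v.asIdeal ^ 2) = p ^ 2 := by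
    rw [Pool.Agent.W417.SecC.D2.card_sq, hN]
  obtain ⟨τ, hτ⟩ := cast_surj v p hp hN hcard hur
  have hnz : NeZero (p ^ 2) := ⟨pow_ne_zero _ hp.ne_zero⟩
  refine ⟨τ, ?_⟩
  have h1 : Nat.card (ZMod (p ^ 2)) = Nat.card (𝓞 L ⧸ v.asIdeal ^ 2) := by
    rw [hcard, Nat.card_zmod]
  have hfin : Finite (𝓞 L ⧸ v.asIdeal ^ 2) := Nat.finite_of_card_ne_zero (by rw [hcard]; exact pow_ne_zero _ hp.ne_zero)
  exact hτ.bijective_of_nat_card_le h1.le

/-- the local step -/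
theorem local_step {R : Type} [CommRing R] {L : Type} [Field L] [NumberField L] (P : R →+* L)
    (v : HeightOneSpectrum (𝓞 L)) (hint : ∀ r, v.valuation L (P r) ≤ 1) (p : ℕ) [hp : Fact p.Prime]
    (hN : Ideal.absNorm v.asIdeal = p) (hur : (p : 𝓞 L) ∉ v.asIdeal ^ 2) (u0 u1 w0 w1 : R)
    (hdet : v.valuation L (P (u0 * w1 - u1 * w0)) = 1) (d m : ℕ) (hd : 3 ≤ d)
    (hm : m * d = p - 1) :
    ∃ Ω : Set (Fin 2 → ZMod (p ^ 2)), (p - 1) * (p * m) ≤ Ω.ncard ∧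
      ∀ x : Fin 2 → ℤ, Pool.Agent.Y722.HS.red (p ^ 2) x ∈ Ω →
        ∃ y : Fin (d + 2) → 𝓞 L,
          (∀ i, v.valuation L (P (kv d ((x 0 : R) * u0 + (x 1 : R) * u1)
            ((x 0 : R) * w0 + (x 1 : R) * w1) i) - algebraMap (𝓞 L) L (y i)) ≤ exp (-2)) ∧
          y 0 ∈ v.asIdeal ∧ y 0 ∉ v.asIdeal ^ 2 ∧ IrrMod v d fun i => y i.succ := by
  classical
  have hmax : v.asIdeal.IsMaximal := v.isMaximal
  let _ := Ideal.Quotient.field v.asIdeal
  have hnz : NeZero (p ^ 2) := ⟨pow_ne_zero _ hp.out.ne_zero⟩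
  obtain ⟨τ, hτ⟩ := int_mem v p hp.out hN hur
  have hcard : Nat.card (𝓞 L ⧸ v.asIdeal) = p := by
    rw [← hN, Ideal.absNorm_apply, Submodule.cardQuot_apply]
  have hfin : Finite (𝓞 L ⧸ v.asIdeal) :=
    Nat.finite_of_card_ne_zero (by rw [hcard]; exact hp.out.ne_zero)
  have hpm : (p : 𝓞 L) ∈ v.asIdeal := by
    have := Ideal.absNorm_mem v.asIdeal
    rwa [hN] at this
  have hpz : ((p : ℕ) : 𝓞 L ⧸ v.asIdeal) = 0 := by
    rw [← map_natCast (Ideal.Quotient.mk v.asIdeal)]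
    exact Ideal.Quotient.eq_zero_iff_mem.mpr hpm
  have hchar : CharP (𝓞 L ⧸ v.asIdeal) p := by
    obtain ⟨r, hr⟩ := CharP.exists (𝓞 L ⧸ v.asIdeal)
    have h1 : r ∣ p := (CharP.cast_eq_zero_iff _ r p).mp hpz
    rcases (Nat.dvd_prime hp.out).mp h1 with h2 | h2
    · exfalso
      rw [h2] at hr
      have h3 := (CharP.cast_eq_zero_iff (𝓞 L ⧸ v.asIdeal) 1 1).mpr (dvd_refl 1)
      rw [Nat.cast_one] at h3
      exact one_ne_zero h3
    · rwa [h2] at hr
  let κ : ZMod p →+* 𝓞 L ⧸ v.asIdeal := ZMod.castHom (dvd_refl p) (𝓞 L ⧸ v.asIdeal)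
  have hκ : Function.Injective κ := κ.injective
  -- integers
  have hmk2 : ∀ n : ℤ, Ideal.Quotient.mk (v.asIdeal ^ 2) (n : 𝓞 L) = τ (n : ZMod (p ^ 2)) := by
    intro n
    rw [map_intCast, map_intCast]
  have hmk1 : ∀ n : ℤ, Ideal.Quotient.mk v.asIdeal (n : 𝓞 L) = κ (n : ZMod p) := by
    intro n
    rw [map_intCast, map_intCast]
  have hval : ∀ z : 𝓞 L, z ∈ v.asIdeal ^ 2 → v.valuation L (algebraMap (𝓞 L) L z) ≤ exp (-2) := by
    intro z hz
    rw [HeightOneSpectrum.valuation_of_algebraMap]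
    exact (v.intValuation_le_pow_iff_mem z 2).2 hz
  have happ : ∀ r : R, ∃ E : ℤ, v.valuation L (P r - algebraMap (𝓞 L) L (E : 𝓞 L)) ≤ exp (-2) := by
    intro r
    obtain ⟨y, hy⟩ := exists_int_near {v} (P r) (fun u hu => by
      rw [Finset.mem_singleton] at hu
      rw [hu]; exact hint _)
    obtain ⟨z, hz⟩ := hτ.2 (Ideal.Quotient.mk (v.asIdeal ^ 2) y)
    obtain ⟨E, hE⟩ := ZMod.intCast_surjective z
    refine ⟨E, ?_⟩
    have h1 : y - (E : 𝓞 L) ∈ v.asIdeal ^ 2 := by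
      rw [← Ideal.Quotient.eq_zero_iff_mem, map_sub, hmk2, hE, hz, sub_self]
    have h2 : P r - algebraMap (𝓞 L) L (E : 𝓞 L) = (P r - algebraMap (𝓞 L) L y) +
        algebraMap (𝓞 L) L (y - (E : 𝓞 L)) := by
      rw [map_sub]; ring
    rw [h2]
    exact (Valuation.map_add _ _ _).trans (max_le (hy v (Finset.mem_singleton_self v)) (hval _ h1))
  obtain ⟨U0, hU0⟩ := happ u0
  obtain ⟨U1, hU1⟩ := happ u1
  obtain ⟨W0, hW0⟩ := happ w0
  obtain ⟨W1, hW1⟩ := happ w1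
  have hγ2 : (exp (-2) : ℤᵐ⁰) < 1 := by
    rw [← exp_zero, exp_lt_exp]
    omega
  have hle1 : ∀ z : 𝓞 L, v.valuation L (algebraMap (𝓞 L) L z) ≤ 1 := fun z =>
    HeightOneSpectrum.valuation_le_one v z
  have hmul : ∀ (r s : R) (E F : ℤ), v.valuation L (P r - algebraMap (𝓞 L) L (E : 𝓞 L)) ≤ exp (-2) →
      v.valuation L (P s - algebraMap (𝓞 L) L (F : 𝓞 L)) ≤ exp (-2) →
      v.valuation L (P (r * s) - algebraMap (𝓞 L) L ((E * F : ℤ) : 𝓞 L)) ≤ exp (-2) := by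
    intro r s E F h1 h2
    have h3 : P (r * s) - algebraMap (𝓞 L) L ((E * F : ℤ) : 𝓞 L) =
        P r * (P s - algebraMap (𝓞 L) L (F : 𝓞 L)) +
        algebraMap (𝓞 L) L (F : 𝓞 L) * (P r - algebraMap (𝓞 L) L (E : 𝓞 L)) := by
      rw [map_mul, Int.cast_mul, map_mul]
      ring
    rw [h3]
    refine (Valuation.map_add _ _ _).trans (max_le ?_ ?_)
    · rw [map_mul]
      calc _ ≤ 1 * exp (-2) := mul_le_mul' (hint r) h2
        _ = exp (-2) := one_mul _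
    · rw [map_mul]
      calc _ ≤ 1 * exp (-2) := mul_le_mul' (hle1 _) h1
        _ = exp (-2) := one_mul _
  have hadd : ∀ (r s : R) (E F : ℤ), v.valuation L (P r - algebraMap (𝓞 L) L (E : 𝓞 L)) ≤ exp (-2) →
      v.valuation L (P s - algebraMap (𝓞 L) L (F : 𝓞 L)) ≤ exp (-2) →
      v.valuation L (P (r + s) - algebraMap (𝓞 L) L ((E + F : ℤ) : 𝓞 L)) ≤ exp (-2) := by
    intro r s E F h1 h2
    have h3 : P (r + s) - algebraMap (𝓞 L) L ((E + F : ℤ) : 𝓞 L) =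
        (P r - algebraMap (𝓞 L) L (E : 𝓞 L)) + (P s - algebraMap (𝓞 L) L (F : 𝓞 L)) := by
      rw [map_add, Int.cast_add, map_add]
      ring
    rw [h3]
    exact (Valuation.map_add _ _ _).trans (max_le h1 h2)
  have hint0 : ∀ n : ℤ, v.valuation L (P (n : R) - algebraMap (𝓞 L) L (n : 𝓞 L)) ≤ exp (-2) := by
    intro n
    rw [map_intCast, map_intCast, sub_self, map_zero]
    exact zero_le
  -- the determinant
  have hdet' : ¬ (p : ℤ) ∣ U0 * W1 - U1 * W0 := by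
    intro hdvd
    have h1 : ((U0 * W1 - U1 * W0 : ℤ) : 𝓞 L) ∈ v.asIdeal := by
      obtain ⟨c, hc⟩ := hdvd
      rw [hc]
      push_cast
      exact Ideal.mul_mem_right _ _ hpm
    have h2 : v.valuation L (algebraMap (𝓞 L) L ((U0 * W1 - U1 * W0 : ℤ) : 𝓞 L)) < 1 := by
      rw [HeightOneSpectrum.valuation_of_algebraMap]
      exact (v.intValuation_lt_one_iff_mem _).2 h1
    have h3 : v.valuation L (P (u0 * w1 - u1 * w0) -
        algebraMap (𝓞 L) L ((U0 * W1 - U1 * W0 : ℤ) : 𝓞 L)) ≤ exp (-2) := by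
      have h4 : P (u0 * w1 - u1 * w0) - algebraMap (𝓞 L) L ((U0 * W1 - U1 * W0 : ℤ) : 𝓞 L) =
          (P (u0 * w1) - algebraMap (𝓞 L) L ((U0 * W1 : ℤ) : 𝓞 L)) -
          (P (u1 * w0) - algebraMap (𝓞 L) L ((U1 * W0 : ℤ) : 𝓞 L)) := by
        rw [map_sub, Int.cast_sub, map_sub]
        ring
      rw [h4]
      exact (Valuation.map_sub _ _ _).trans (max_le (hmul _ _ _ _ hU0 hW1) (hmul _ _ _ _ hU1 hW0))
    have h5 : v.valuation L (P (u0 * w1 - u1 * w0)) < 1 := by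
      have h6 : P (u0 * w1 - u1 * w0) = (P (u0 * w1 - u1 * w0) -
        algebraMap (𝓞 L) L ((U0 * W1 - U1 * W0 : ℤ) : 𝓞 L)) +
        algebraMap (𝓞 L) L ((U0 * W1 - U1 * W0 : ℤ) : 𝓞 L) := by ring
      rw [h6]
      exact (Valuation.map_add _ _ _).trans_lt (max_lt (h3.trans_lt hγ2) h2)
    rw [hdet] at h5
    exact lt_irrefl _ h5
  refine ⟨OmK p d m U0 U1 W0 W1, omK_card p d m (by omega) hm U0 U1 W0 W1 hdet', ?_⟩
  intro x hx
  obtain ⟨hx1, hx2, hx3⟩ := hx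
  set A : ℤ := x 0 * U0 + x 1 * U1 with hA
  set B : ℤ := x 0 * W0 + x 1 * W1 with hB
  have hxA : (U0 : ZMod (p ^ 2)) * Pool.Agent.Y722.HS.red (p ^ 2) x 0 +
      (U1 : ZMod (p ^ 2)) * Pool.Agent.Y722.HS.red (p ^ 2) x 1 = (A : ZMod (p ^ 2)) := by
    simp only [Pool.Agent.Y722.HS.red, hA]
    push_cast
    ring
  have hxB : (W0 : ZMod (p ^ 2)) * Pool.Agent.Y722.HS.red (p ^ 2) x 0 +
      (W1 : ZMod (p ^ 2)) * Pool.Agent.Y722.HS.red (p ^ 2) x 1 = (B : ZMod (p ^ 2)) := by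
    simp only [Pool.Agent.Y722.HS.red, hB]
    push_cast
    ring
  rw [hxA] at hx1 hx2
  rw [hxB] at hx3
  rw [map_intCast] at hx1 hx3
  refine ⟨kv d (A : 𝓞 L) (B : 𝓞 L), ?_, ?_, ?_, ?_⟩
  · intro i
    refine Fin.cases ?_ (fun j => ?_) i
    · rw [kv_zero, kv_zero]
      exact hadd _ _ _ _ (hmul _ _ _ _ (hint0 _) hU0) (hmul _ _ _ _ (hint0 _) hU1)
    · rw [kv_succ, kv_succ, kf_map, kf_map]
      have h1 := hadd _ _ _ _ (hmul _ _ _ _ (hint0 (x 0)) hW0) (hmul _ _ _ _ (hint0 (x 1)) hW1)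
      unfold kf
      split_ifs
      · have h2 : -P ((x 0 : R) * w0 + (x 1 : R) * w1) - -algebraMap (𝓞 L) L (B : 𝓞 L) =
          -(P ((x 0 : R) * w0 + (x 1 : R) * w1) - algebraMap (𝓞 L) L (B : 𝓞 L)) := by ring
        rw [h2, Valuation.map_neg]
        exact h1
      · simp
      · simp
  · rw [kv_zero, ← Ideal.Quotient.eq_zero_iff_mem, hmk1, hx1, map_zero]
  · rw [kv_zero, ← Ideal.Quotient.eq_zero_iff_mem, hmk2, map_eq_zero_iff τ hτ.1]
    exact hx2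
  · refine ⟨?_, ?_⟩
    · change kf d (B : 𝓞 L) (Fin.last d) ∉ v.asIdeal
      rw [kf_last d (by omega)]
      exact fun h => hmax.ne_top ((Ideal.eq_top_iff_one _).mpr h)
    · have h1 : (fun i => Ideal.Quotient.mk v.asIdeal (kv d (A : 𝓞 L) (B : 𝓞 L) i.succ)) =
          kf d (Ideal.Quotient.mk v.asIdeal (B : 𝓞 L)) := by
        funext i
        rw [kv_succ, kf_map]
      rw [h1, pol_kf d (by omega)]
      refine irr_kummer (by omega) m (by rw [hcard]; exact hm) _ ?_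
      rw [hmk1, ← map_pow]
      exact (orderOf_injective κ.toMonoidHom hκ ((B : ZMod p) ^ m)).trans hx3

end Pool.Agent.N514.CF
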