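import Pool.Agent.N24.RW.All
import Pool.Agent.N339.BL.Orb
import Pool.Agent.N514.CF.Loc
import Pool.Agent.N514.CF.Down

/-!
# Norm-form curves for binomials: the exceptional parameters are pronull (helper514)

The proofs follow `Pool/Agent/N339/BL/Orb.lean` (helper339).
-/

set_option autoImplicit false

namespace Pool.Agent.N514.CF

open Finset Polynomial WithZero NumberField IsDedekindDomain Pool.Agent.W858.SF Pool.Agent.W858.SG
open Pool.Agent.TH377.Sup Pool.Agent.N92.TH Pool.Agent.N339.BS Pool.Agent.N339.BL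
open Pool.Agent.N24.RW (ProNull)

/-- the primes `p = 1` modulo `d` with a prime of degree one above them -/
theorem primes_mod (L : Type) [Field L] [NumberField L] (d : ℕ) (hd : 0 < d) (D : 𝓞 L) (hD : D ≠ 0)
    (B : ℝ) : ∃ U : Finset ℕ, (∀ p ∈ U, p.Prime ∧ d ∣ p - 1 ∧ ∃ v : HeightOneSpectrum (𝓞 L),
      Ideal.absNorm v.asIdeal = p ∧ D ∉ v.asIdeal) ∧ B ≤ ∑ p ∈ U, 1 / (p : ℝ) := by
  obtain ⟨L', _, _, D', hD', h⟩ := down L d hd D hD
  obtain ⟨U, hU, hUB⟩ := primes_deg_one L' D' hD' B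
  refine ⟨U, fun p hp => ?_, hUB⟩
  obtain ⟨hpp, v', hv', hvD⟩ := hU p hp
  exact ⟨hpp, h p hpp v' hv' hvD⟩

/-- the exceptional parameters are pronull -/
theorem proNull_K {R k : Type} [CommRing R] [IsDomain R] [CharZero R] [Algebra.FiniteType ℤ R]
    [Field k] [Algebra R k] [IsFractionRing R k] (u0 u1 w0 w1 : R)
    (hdet : u0 * w1 - u1 * w0 ≠ 0) (d : ℕ) (hd : 3 ≤ d) :
    ProNull {x : Fin 2 → ℤ | ¬ GoodL k d (kv d ((x 0 : R) * u0 + (x 1 : R) * u1)
      ((x 0 : R) * w0 + (x 1 : R) * w1))} := by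
  classical
  have hcz : CharZero k := charZero_of_injective_algebraMap (IsFractionRing.injective R k)
  obtain ⟨L, _, _, P, hPe, hemb⟩ := emb_fg (k := k) (u0 * w1 - u1 * w0) hdet
  obtain ⟨N1, hN1, hemb⟩ := hemb
  obtain ⟨Dr, hDr, hur⟩ := unram_ae L
  -- numerator and denominator
  obtain ⟨a, b, hb, hab⟩ := IsFractionRing.div_surjective (A := 𝓞 L) (P (u0 * w1 - u1 * w0))
  have hb0 : b ≠ 0 := nonZeroDivisors.ne_zero hb
  have ha0 : a ≠ 0 := by
    rintro rfl
    rw [map_zero, zero_div] at hab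
    exact hPe hab.symm
  have hD0 : N1 * Dr * 2 * a * b ≠ 0 :=
    mul_ne_zero (mul_ne_zero (mul_ne_zero (mul_ne_zero hN1 hDr) two_ne_zero) ha0) hb0
  have hd0 : (0 : ℝ) < d := by
    have : 0 < d := by omega
    exact_mod_cast this
  let S : Set ℕ := {p | p.Prime ∧ d ∣ p - 1 ∧ ∃ v : HeightOneSpectrum (𝓞 L),
    Ideal.absNorm v.asIdeal = p ∧ N1 * Dr * 2 * a * b ∉ v.asIdeal}
  have hex : ∀ p ∈ S, ∃ Ω : Set (Fin 2 → ZMod (p ^ 2)),
      (1 / (4 * d)) * (1 / (p : ℝ)) * (p : ℝ) ^ 4 ≤ (Ω.ncard : ℝ) ∧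
      ∀ x : Fin 2 → ℤ, Pool.Agent.Y722.HS.red (p ^ 2) x ∈ Ω →
        GoodL k d (kv d ((x 0 : R) * u0 + (x 1 : R) * u1) ((x 0 : R) * w0 + (x 1 : R) * w1)) := by
    intro p hp
    obtain ⟨hpp, ⟨m, hm⟩, v, hvN, hvD⟩ := hp
    have hfact : Fact p.Prime := ⟨hpp⟩
    have v5 : b ∉ v.asIdeal := fun h => hvD (Ideal.mul_mem_left _ _ h)
    have v4 : a ∉ v.asIdeal := fun h => hvD (Ideal.mul_mem_right _ _ (Ideal.mul_mem_left _ _ h))
    have v3 : (2 : 𝓞 L) ∉ v.asIdeal := fun h =>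
      hvD (Ideal.mul_mem_right _ _ (Ideal.mul_mem_right _ _ (Ideal.mul_mem_left _ _ h)))
    have v2 : Dr ∉ v.asIdeal := fun h => hvD (Ideal.mul_mem_right _ _ (Ideal.mul_mem_right _ _
      (Ideal.mul_mem_right _ _ (Ideal.mul_mem_left _ _ h))))
    have v1 : N1 ∉ v.asIdeal := fun h => hvD (Ideal.mul_mem_right _ _ (Ideal.mul_mem_right _ _
      (Ideal.mul_mem_right _ _ (Ideal.mul_mem_right _ _ h))))
    obtain ⟨hint, ψ, hψ⟩ := hemb v v1
    obtain ⟨Ω, hΩ1, hΩ2⟩ := local_step P v hint p hvN (hur v v2 p hpp) u0 u1 w0 w1 (by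
      rw [← hab, map_div₀, (HeightOneSpectrum.valuation_eq_one_iff_notMem v).2 v4,
        (HeightOneSpectrum.valuation_eq_one_iff_notMem v).2 v5, div_one]) d m hd
        (by rw [hm, mul_comm])
    refine ⟨Ω, ?_, fun x hx => ?_⟩
    · -- the density
      have h1 : (((p - 1) * (p * m) : ℕ) : ℝ) ≤ (Ω.ncard : ℝ) := by exact_mod_cast hΩ1
      refine le_trans ?_ h1
      have hp2 : (2 : ℝ) ≤ p := by exact_mod_cast hpp.two_le
      have e1 : ((p - 1 : ℕ) : ℝ) = (p : ℝ) - 1 := by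
        rw [Nat.cast_sub hpp.one_lt.le]; simp
      have e2 : (d : ℝ) * m = (p : ℝ) - 1 := by
        rw [← e1, hm]; push_cast; ring
      have e3 : (m : ℝ) = ((p : ℝ) - 1) / d := by
        rw [eq_div_iff hd0.ne', mul_comm]; exact e2
      push_cast
      rw [e1, e3]
      have hp0 : (0 : ℝ) < p := by linarith
      have e4 : (1 / (4 * (d : ℝ))) * (1 / (p : ℝ)) * (p : ℝ) ^ 4 = (p : ℝ) * ((p : ℝ) ^ 2 / 4) / d := by
        field_simp
      have e5 : ((p : ℝ) - 1) * ((p : ℝ) * (((p : ℝ) - 1) / d)) = (p : ℝ) * ((p : ℝ) - 1) ^ 2 / d := by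
        ring
      rw [e4, e5]
      apply div_le_div_of_nonneg_right _ hd0.le
      apply mul_le_mul_of_nonneg_left _ hp0.le
      nlinarith
    · obtain ⟨y, hcy, g1, g2, g3⟩ := hΩ2 x hx
      obtain ⟨l0, hl0, hld0⟩ := Nat.exists_prime_and_dvd (show d ≠ 1 by omega)
      obtain ⟨k1, k2, k3, -⟩ := fine_embR.{0, 0, 0} v P ψ hint hψ v3 hd _ y hcy g1 g2 g3
        l0 hl0 hld0
      exact ⟨k1, k2, k3, data_embR v P ψ hint hψ v3 _ y hcy g1 g2 g3⟩
  choose! Ω hΩ1 hΩ2 using hex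
  let Ω' : ∀ p : ℕ, Set (Fin 2 → ZMod (p ^ 2)) := fun p => if p ∈ S then Ω p else ∅
  let w : ℕ → ℝ := fun p => if p ∈ S then (1 / (4 * d)) * (1 / (p : ℝ)) else 0
  have hw0 : ∀ p, 0 ≤ w p := by
    intro p
    by_cases hp : p ∈ S
    · simp only [w, if_pos hp]
      positivity
    · simp only [w, if_neg hp, le_refl]
  have hns : ¬ Summable (fun p : ℕ => if p.Prime then w p else 0) := by
    intro hsum
    set B := ∑' p : ℕ, (if p.Prime then w p else 0) with hB
    obtain ⟨U, hU, hUB⟩ := primes_mod L d (by omega) _ hD0 (4 * d * (|B| + 1))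
    have hle : ∑ p ∈ U, (if p.Prime then w p else 0) ≤ B :=
      hsum.sum_le_tsum U fun p _ => by
        by_cases hp : p.Prime
        · rw [if_pos hp]; exact hw0 p
        · rw [if_neg hp]
    have hge : |B| + 1 ≤ ∑ p ∈ U, (if p.Prime then w p else 0) := by
      calc |B| + 1 = 1 / (4 * d) * (4 * d * (|B| + 1)) := by field_simp
        _ ≤ 1 / (4 * d) * ∑ p ∈ U, 1 / (p : ℝ) := mul_le_mul_of_nonneg_left hUB (by positivity)
        _ = ∑ p ∈ U, 1 / (4 * d) * (1 / (p : ℝ)) := Finset.mul_sum _ _ _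
        _ ≤ _ := Finset.sum_le_sum fun p hp => by
          have hpS : p ∈ S := hU p hp
          rw [if_pos hpS.1]
          simp only [w, if_pos hpS]
          exact le_rfl
    have := le_abs_self B
    linarith
  have hcard : ∀ p, p.Prime → 0 < p → w p * ((p ^ 2 : ℕ) : ℝ) ^ Fintype.card (Fin 2) ≤
      ((Ω' p).ncard : ℝ) := by
    intro p hp _
    by_cases hpS : p ∈ S
    · simp only [w, Ω', if_pos hpS]
      have h1 := hΩ1 p hpS
      rw [Fintype.card_fin]
      push_cast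
      rw [← pow_mul]
      exact h1
    · simp only [w, Ω', if_neg hpS, zero_mul]
      positivity
  have h1 := Pool.Agent.N24.RW.crit (Fin 2) (fun p => p ^ 2)
    (fun p hp => Nat.one_le_pow _ _ hp.pos)
    (fun p p' hp hp' hne => Nat.Coprime.pow 2 2 ((Nat.coprime_primes hp hp').mpr hne)) Ω' 0 w hw0
    hns hcard
  refine (Pool.Agent.N24.RW.clo (Fin 2)).1 _ _ ?_ h1
  intro x hx p hp _ hmem
  by_cases hpS : p ∈ S
  · simp only [Ω', if_pos hpS] at hmem
    exact hx (hΩ2 p hpS x hmem)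
  · simp only [Ω', if_neg hpS] at hmem
    exact hmem

/-- **pronull sets**, for one finitely generated field -/
theorem pro_K {k : Type} [Field k] [CharZero k]
    (hk : ∃ s : Finset k, Subfield.closure (s : Set k) = ⊤) (u0 u1 w0 w1 : k)
    (hdet : u0 * w1 - u1 * w0 ≠ 0) (d : ℕ) (hd : 3 ≤ d) :
    ProNull {x : Fin 2 → ℤ | ¬ GoodL k d (kv d ((x 0 : k) * u0 + (x 1 : k) * u1)
      ((x 0 : k) * w0 + (x 1 : k) * w1))} := by
  obtain ⟨n, I, e', φ, ⟨hker, hgen⟩, he⟩ := exists_code hk ![u0, u1, w0, w1]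
  let R := MvPolynomial (Fin n) ℤ ⧸ I
  let ψ : R →+* k := Ideal.Quotient.lift I φ (fun x hx => by rwa [← hker, RingHom.mem_ker] at hx)
  have hψe : ∀ x, ψ (Ideal.Quotient.mk I x) = φ x := fun x => Ideal.Quotient.lift_mk I φ _
  have hψ : Function.Injective ψ := by
    rw [injective_iff_map_eq_zero]
    intro x hx
    obtain ⟨x, rfl⟩ := Ideal.Quotient.mk_surjective x
    rw [hψe] at hx
    rw [Ideal.Quotient.eq_zero_iff_mem, ← hker, RingHom.mem_ker]
    exact hx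
  have hdom : IsDomain R := hψ.isDomain ψ
  have hcz : CharZero R := RingHom.charZero ψ
  have hft := finType (Ideal.Quotient.mk I) Ideal.Quotient.mk_surjective
  let _ : Algebra R k := ψ.toAlgebra
  have hfs : FaithfulSMul R k := (faithfulSMul_iff_algebraMap_injective R k).2 hψ
  have hfr : IsFractionRing R k := IsFractionRing.of_field R k (by
    intro z
    obtain ⟨x, y, hxy⟩ := hgen z
    refine ⟨Ideal.Quotient.mk I x, Ideal.Quotient.mk I y, ?_⟩
    change z = ψ _ / ψ _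
    rw [hψe, hψe]
    exact hxy)
  have e0 : ψ (Ideal.Quotient.mk I (e' 0)) = u0 := by rw [hψe]; exact congrFun he 0
  have e1 : ψ (Ideal.Quotient.mk I (e' 1)) = u1 := by rw [hψe]; exact congrFun he 1
  have e2 : ψ (Ideal.Quotient.mk I (e' 2)) = w0 := by rw [hψe]; exact congrFun he 2
  have e3 : ψ (Ideal.Quotient.mk I (e' 3)) = w1 := by rw [hψe]; exact congrFun he 3
  have hdet' : (Ideal.Quotient.mk I (e' 0) : R) * Ideal.Quotient.mk I (e' 3) -
      Ideal.Quotient.mk I (e' 1) * Ideal.Quotient.mk I (e' 2) ≠ 0 := by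
    intro h0
    apply hdet
    have h1 := congrArg ψ h0
    rw [map_zero, map_sub, map_mul, map_mul, e0, e1, e2, e3] at h1
    exact h1
  refine (Pool.Agent.N24.RW.clo (Fin 2)).1 _ _ ?_ (proNull_K (k := k) _ _ _ _ hdet' d hd)
  intro x hx hgood
  apply hx
  refine goodL_congr d _ _ ?_ hgood
  intro i
  change ψ _ = kv d _ _ i
  refine Fin.cases ?_ (fun j => ?_) i
  · rw [kv_zero, kv_zero, map_add, map_mul, map_mul, e0, e1, map_intCast, map_intCast]
  · rw [kv_succ, kv_succ, kf_map, map_add, map_mul, map_mul, e2, e3, map_intCast, map_intCast]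

end Pool.Agent.N514.CF
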